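import Pool.Agent.MP_c130bd_co.RIS.Fin

set_option autoImplicit false

namespace Pool.Agent.Results.MP_c130bd_co.InitialSegments

open Pool.Agent.RVM Finset

/-- **Initial segments of both vectors for `s = d + 4`.** Let `3 (J + 3) + 2 k ≤ d + 2` and let `e 0 ≤ e 1 ≤ … ≤ e J ≤ d - 2 k - 2` be integers with
`3 (j + 1) + ∑_{j < t ≤ J} max 2 (e t - e (t - 1)) ≤ e J` for all `j ≤ J`. Then there is a set `S` of `d + 4` points in general position in `ℝ^d` such
that the primitive Radon vector of `S` begins with `k` zeros and then `e 0, e 1, …, e J`, and the Radon vector of `S` begins with `k` zeros and then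
`1, e 0, e 1, …, e J`. -/
theorem result (d k J : ℕ) (hw : 3 * (J + 3) + 2 * k ≤ d + 2) (e : ℕ → ℕ)
    (hmono : ∀ j < J, e j ≤ e (j + 1)) (htop : e J + 2 * k + 2 ≤ d)
    (hlow : ∀ j ≤ J, 3 * (j + 1) + ∑ t ∈ Ioc j J, max 2 (e t - e (t - 1)) ≤ e J) :
    ∃ S : Finset (E d), S.card = d + 4 ∧ GP S ∧ (∀ i, 1 ≤ i → i ≤ k → PP S i = 0 ∧ rr S i = 0) ∧
      rr S (k + 1) = 1 ∧ ∀ j ≤ J, PP S (k + 1 + j) = e j ∧ rr S (k + 2 + j) = e j :=
  Pool.Agent.RIS.main4 d k J (by omega) hw e hmono htop hlow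

end Pool.Agent.Results.MP_c130bd_co.InitialSegments
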