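import Pool.Agent.MP_c130bd_co.RVM.HAsy

set_option autoImplicit false

namespace Pool.Agent.Results.MP_c130bd_co.LocalFullness

open Pool.Agent.RVM

/-- **Local fullness.** Near every primitive Radon vector of a set of `s` points in general position in `ℝ^d` there is a cube (its centre
`w` has the distance at most `ε s^(d+2)` from the vector, its side is `2 δ s^(d+2)`) all of whose integer vectors with the sum
`s.choose (d + 2)` (and with even entries `1, …, d / 2`, if `s + d` is odd) are primitive Radon vectors of sets of `s` points in general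
position in `ℝ^d`. -/
theorem result (d : ℕ) (hd : 2 ≤ d) (ε : ℝ) (hε : 0 < ε) : ∃ δ : ℝ, 0 < δ ∧ ∃ s₀ : ℕ, ∀ s, s₀ ≤ s →
    ∀ S : Finset (E d), GP S → S.card = s → ∃ w : ℕ → ℤ,
      ∑ i ∈ Finset.Icc 1 (d / 2 + 1), w i = (s.choose (d + 2) : ℤ) ∧
      (∀ i, 1 ≤ i → i ≤ d / 2 + 1 → |(w i : ℝ) - PP S i| ≤ ε * (s : ℝ) ^ (d + 2)) ∧
      ∀ v : ℕ → ℤ, ∑ i ∈ Finset.Icc 1 (d / 2 + 1), v i = (s.choose (d + 2) : ℤ) →
        (Odd (s + d) → ∀ i, 1 ≤ i → i ≤ d / 2 → Even (v i)) →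
        (∀ i, 1 ≤ i → i ≤ d / 2 + 1 → |(v i : ℝ) - w i| ≤ δ * (s : ℝ) ^ (d + 2)) →
        ∃ S' : Finset (E d), GP S' ∧ S'.card = s ∧ ∀ i, 1 ≤ i → i ≤ d / 2 + 1 → (PP S' i : ℤ) = v i := by
  have hε1 : 0 < min ε 1 := lt_min hε one_pos
  obtain ⟨δ, hδ, s₀, hpar⟩ := params d hd (min ε 1) hε1 (min_le_right _ _)
  refine ⟨δ, hδ, s₀, ?_⟩
  intro s hs S hS hc
  obtain ⟨n, Q, m, hn, hm, hms, hQ, hB, hD⟩ := hpar s hs
  obtain ⟨A, hA1, hA2⟩ := window d hd s n Q m S hS hc hn hm hms hQ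
  set k := d / 2 with hk
  set B : ℤ := (d + 1) * (n : ℤ) ^ (d + 2) + 2 * (d + 1) * Q * (d * (Q + 1)) +
    d * (m * (s : ℤ) ^ (d + 1)) with hBdef
  have hB0 : 0 ≤ B := by positivity
  have hd1 : 1 ≤ d := by omega
  have hcS : d + 1 ≤ S.card := by omega
  have hk1 : k ≤ d := by omega
  let A' : ℕ → ℤ := fun a => if a = 0 then 0 else if a ≤ k then A a else (s.choose (d + 2) : ℤ)
  have hA'0 : A' 0 = 0 := by simp [A']
  have hA'1 : ∀ a, 1 ≤ a → a ≤ k → A' a = A a := by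
    intro a h1 h2
    simp only [A']
    rw [if_neg (by omega), if_pos h2]
  have hA'2 : A' (k + 1) = (s.choose (d + 2) : ℤ) := by
    simp only [A']
    rw [if_neg (by omega), if_neg (by omega)]
  have hpS : ∑ i ∈ Finset.Icc 1 (k + 1), (PP S i : ℤ) = (s.choose (d + 2) : ℤ) := by
    have h := pp_sum hd1 hS hcS
    rw [hc] at h
    exact_mod_cast h
  have he : ∀ a, a ≤ k + 1 → |A' a - ∑ i ∈ Finset.Icc 1 a, (PP S i : ℤ)| ≤ B := by
    intro a ha
    rcases Nat.eq_zero_or_pos a with h0 | h0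
    · rw [h0, hA'0]
      simpa using hB0
    · rcases Nat.lt_or_ge k a with h1 | h1
      · have h2 : a = k + 1 := by omega
        rw [h2, hA'2, hpS]
        simpa using hB0
      · rw [hA'1 a h0 h1]
        exact hA1 a h0 h1
  refine ⟨fun i => A' i - A' (i - 1), ?_, ?_, ?_⟩
  · rw [HAsy_tel, hA'0, hA'2, sub_zero]
  · intro i hi1 hi2
    obtain ⟨j, rfl⟩ : ∃ j, i = j + 1 := ⟨i - 1, by omega⟩
    have h1 := he (j + 1) hi2
    have h2 := he j (by omega)
    rw [HAsy_sum] at h1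
    have h3 : |(A' (j + 1) - A' j) - (PP S (j + 1) : ℤ)| ≤ 2 * B := by
      rw [abs_le] at h1 h2 ⊢
      constructor <;> linarith [h1.1, h1.2, h2.1, h2.2]
    have h4 : |((A' (j + 1) - A' j : ℤ) : ℝ) - (PP S (j + 1) : ℝ)| ≤ 2 * (B : ℝ) := by
      exact_mod_cast h3
    have h5 : (min ε 1) * (s : ℝ) ^ (d + 2) ≤ ε * (s : ℝ) ^ (d + 2) :=
      mul_le_mul_of_nonneg_right (min_le_left _ _) (by positivity)
    simp only [Nat.add_sub_cancel]
    exact h4.trans (hB.trans h5)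
  · intro v hv hpv hvw
    have hvZ : ∑ i ∈ Finset.Icc 1 (k + 1), v i = (s.choose (d + 2) : ℤ) := hv
    obtain ⟨S', hS', hc', hsum⟩ := hA2 (fun a => ∑ i ∈ Finset.Icc 1 a, v i) (by
      intro a ha1 ha2
      have h1 : ∑ i ∈ Finset.Icc 1 a, v i - A a =
          ∑ i ∈ Finset.Icc 1 a, (v i - (A' i - A' (i - 1))) := by
        rw [Finset.sum_sub_distrib, HAsy_tel, hA'0, hA'1 a ha1 ha2, sub_zero]
      rw [h1]
      have h2 : |((∑ i ∈ Finset.Icc 1 a, (v i - (A' i - A' (i - 1))) : ℤ) : ℝ)| ≤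
          a * (δ * (s : ℝ) ^ (d + 2)) := by
        push_cast
        refine (Finset.abs_sum_le_sum_abs _ _).trans ?_
        have h3 : ∀ i ∈ Finset.Icc 1 a, |(v i : ℝ) - ((A' i : ℝ) - (A' (i - 1) : ℝ))| ≤
            δ * (s : ℝ) ^ (d + 2) := by
          intro i hi
          rw [Finset.mem_Icc] at hi
          have h4 := hvw i hi.1 (by omega)
          push_cast at h4
          exact h4
        refine (Finset.sum_le_card_nsmul _ _ _ h3).trans ?_
        rw [Nat.card_Icc, nsmul_eq_mul]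
        simp
      have h5 : (a : ℝ) * (δ * (s : ℝ) ^ (d + 2)) ≤ d * (δ * (s : ℝ) ^ (d + 2)) := by
        apply mul_le_mul_of_nonneg_right _ (by positivity)
        have : a ≤ d := by omega
        exact_mod_cast this
      have h6 := (h2.trans h5).trans hD
      exact_mod_cast h6) (by
      intro hodd a ha1 ha2
      apply Finset.dvd_sum
      intro i hi
      rw [Finset.mem_Icc] at hi
      have := hpv hodd i hi.1 (by omega)
      exact this.two_dvd)
    have hpS' : ∑ i ∈ Finset.Icc 1 (k + 1), (PP S' i : ℤ) = (s.choose (d + 2) : ℤ) := by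
      have h := pp_sum hd1 hS' (by rw [hc', ← hc]; exact hcS)
      rw [hc'] at h
      exact_mod_cast h
    have hall : ∀ a, a ≤ k + 1 → ∑ i ∈ Finset.Icc 1 a, (PP S' i : ℤ) =
        ∑ i ∈ Finset.Icc 1 a, v i := by
      intro a ha
      rcases Nat.eq_zero_or_pos a with h0 | h0
      · rw [h0]
        simp
      · rcases Nat.lt_or_ge k a with h1 | h1
        · have h2 : a = k + 1 := by omega
          rw [h2, hpS', hvZ]
        · exact hsum a h0 h1
    refine ⟨S', hS', hc', ?_⟩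
    intro i hi1 hi2
    obtain ⟨j, rfl⟩ : ∃ j, i = j + 1 := ⟨i - 1, by omega⟩
    have h1 := hall (j + 1) hi2
    have h2 := hall j (by omega)
    rw [HAsy_sum, HAsy_sum, h2] at h1
    exact add_left_cancel h1

end Pool.Agent.Results.MP_c130bd_co.LocalFullness
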