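import Pool.Agent.MP_c130bd_co.RVM.Fin

set_option autoImplicit false

namespace Pool.Agent.Results.MP_c130bd_co.PrimSpectrum

open Pool.Agent.RVM

/-- **The values of the primitive Radon numbers.** Every primitive Radon number takes all the integers (of the right parity, if `s + d` is
odd) between any two of its values, except possibly those at the distance less than `100 (d + 1)² s^(d+1) √s` from the two values. If `s + d`
is odd, the parity of every `P_i` is the same for all the sets of `s` points in general position. For `d = 2, 3` this is a statement on the primitive Radon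
vectors. -/
theorem result (d s : ℕ) (hd : 2 ≤ d) (hs : d + 2 ≤ s) :
    (∀ i, 1 ≤ i → i ≤ d / 2 + 1 → ∀ S₀ S₁ : Finset (E d), GP S₀ → GP S₁ → S₀.card = s → S₁.card = s →
      ∀ n : ℕ, (Odd (s + d) → n % 2 = PP S₀ i % 2) →
        (PP S₀ i : ℝ) + 100 * (d + 1) ^ 2 * (s : ℝ) ^ (d + 1) * √s ≤ n →
        (n : ℝ) + 100 * (d + 1) ^ 2 * (s : ℝ) ^ (d + 1) * √s ≤ PP S₁ i →
        ∃ S : Finset (E d), GP S ∧ S.card = s ∧ PP S i = n) ∧
    (Odd (s + d) → ∀ S₀ S₁ : Finset (E d), GP S₀ → GP S₁ → S₀.card = s → S₁.card = s →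
      ∀ i, PP S₀ i % 2 = PP S₁ i % 2) ∧
    ((d = 2 ∨ d = 3) → ∀ v v' : ℕ → ℕ, IsPrimVec d s v' → v 1 + v 2 = s.choose (d + 2) →
      (Odd (s + d) → Even (v 1)) →
      100 * ((d : ℝ) + 1) ^ 2 * (s : ℝ) ^ (d + 1) * √s ≤ v 1 →
      (v 1 : ℝ) + 100 * ((d : ℝ) + 1) ^ 2 * (s : ℝ) ^ (d + 1) * √s ≤ v' 1 → IsPrimVec d s v) := by
  refine ⟨?_, ?_, ?_⟩
  · intro i hi hi' S₀ S₁ hS₀ hS₁ hc₀ hc₁ n hn h0 h1
    exact spectrum d hd s hs i hi hi' S₀ S₁ hS₀ hS₁ hc₀ hc₁ n hn h0 h1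
  · intro ho S₀ S₁ hS₀ hS₁ hc₀ hc₁ i
    exact parity (by omega) hs ho hS₀ hS₁ hc₀ hc₁ i
  · intro h v v' hv' hsum hpar h0 h1
    exact dim_two_three d h s hs v v' hv' hsum hpar h0 h1

end Pool.Agent.Results.MP_c130bd_co.PrimSpectrum
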