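import Pool.Agent.MP_c130bd_co.RVG.F4

set_option autoImplicit false

namespace Pool.Agent.Results.MP_c130bd_co.ZeroBlockConverse

open Pool.Agent.RVM Finset

/-- **A converse of the theorem on the zero block.** Let `s ≥ d + 4`, `k ≤ ⌊d/2⌋` and let `v` be a vector of nonnegative integers with
`v 1 = … = v k = 0`, with the sum `s.choose (d + 2)`, with even entries `v 1, …, v ⌊d/2⌋` if `s + d` is odd, and with all the entries `v i`, `i > k`, at least
`3 * s.choose (d + 3) + (s - d - 2) * s ^ 2`. Then `v` is the primitive Radon vector of a set of `s` points in general position in `ℝ^d`.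
For `s = d + 4` lower bounds linear in `d` are sufficient (for the first non-zero entry: `6`). -/
theorem result (d s k : ℕ) (hd : 1 ≤ d) (hs : d + 4 ≤ s) (hk : k ≤ d / 2) (v : ℕ → ℕ)
    (hzero : ∀ i, 1 ≤ i → i ≤ k → v i = 0)
    (hsum : ∑ i ∈ Icc 1 (d / 2 + 1), v i = s.choose (d + 2))
    (hpar : Odd (s + d) → ∀ i, 1 ≤ i → i ≤ d / 2 → Even (v i))
    (hlow : (∀ i, k < i → i ≤ d / 2 + 1 → 3 * s.choose (d + 3) + (s - d - 2) * s ^ 2 ≤ v i) ∨
      (s = d + 4 ∧ k < d / 2 ∧ 6 ≤ v (k + 1) ∧
        (∀ i, k + 1 < i → i ≤ d / 2 → d + 2 * k + 14 ≤ v i) ∧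
        (Even d → d + 2 * k + 8 ≤ 2 * v (d / 2 + 1)) ∧ (Odd d → d + 2 * k + 8 ≤ v (d / 2 + 1)))) :
    ∃ S : Finset (E d), S.card = s ∧ GP S ∧ ∀ i, 1 ≤ i → i ≤ d / 2 + 1 → PP S i = v i := by
  rcases Nat.eq_or_lt_of_le hs with hs4 | hs5
  · -- `s = d + 4`
    subst hs4
    rcases hlow with hlow | ⟨-, hk', h1, h2, h3, h4⟩
    · have hch : (d + 4).choose (d + 3) = d + 4 := by
        rw [show d + 4 = (d + 3) + 1 by omega, Nat.choose_succ_self_right]
      have e : d + 4 - d - 2 = 2 := by omega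
      rw [hch, e] at hlow
      have hq : d + 4 ≤ (d + 4) ^ 2 := Nat.le_self_pow (by norm_num) _
      have hall : ∀ i, k < i → i ≤ d / 2 + 1 → 5 * (d + 4) ≤ v i := by
        intro i h1 h2
        have := hlow i h1 h2
        omega
      refine Pool.Agent.RVG.fin3 d k hd hk v hzero hsum ?_ ?_ ?_
      · intro h
        have := hall (k + 1) (by omega) (by omega)
        omega
      · intro i h1 h2
        have := hall i (by omega) (by omega)
        omega
      · intro h
        have := hall (d / 2 + 1) (by omega) (by omega)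
        exact ⟨fun _ => by omega, fun _ => by omega⟩
    · exact Pool.Agent.RVG.fin3 d k hd hk v hzero hsum (fun _ => h1)
        (fun i h5 h6 => h2 i h5 (by omega)) (fun _ => ⟨h3, h4⟩)
  · -- `s ≥ d + 5`
    rcases hlow with hlow | ⟨h, -⟩
    · obtain ⟨m, hm⟩ : ∃ m, s = d + m + 1 := ⟨s - d - 1, by omega⟩
      subst hm
      have e : d + m + 1 - d - 2 = m - 1 := by omega
      rw [e] at hlow
      refine Pool.Agent.RVG.fin4 d m k (by omega) hd hk v hzero hsum ?_ hlow
      intro hme
      apply hpar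
      obtain ⟨r, hr⟩ := hme
      exact ⟨d + r, by omega⟩
    · omega

end Pool.Agent.Results.MP_c130bd_co.ZeroBlockConverse
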